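import Pool.Agent.K6.H89.BG.Main

/-!
# Single equations in one variable over the Baumslag–Gersten group are undecidable

Let `G = ⟨a, t | t a t⁻¹ a t a⁻¹ t⁻¹ a⁻²⟩` be the Baumslag–Gersten group. We show that every
recursively enumerable set of natural numbers is many-one reducible to the satisfiability of a
single equation `w(x) = 1` in one variable over `G`. So no algorithm decides whether such an
equation has a solution, which answers Q1 (for every one-relator group?) in the negative.

Write `b = t a t⁻¹`, so that `b a b⁻¹ = a²`.

* **Coding.** Elements `x = a ^ r b ^ k` of the subgroup `⟨a, b⟩ = BS(1, 2)` carry two parameters: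
  `x a x⁻¹ = a ^ K` with `K = 2 ^ k`, and `b x b⁻¹ x⁻¹ = a ^ r`. If `u`, `v` are words with values
  `a ^ m`, `a ^ n`, then `u v` and `u⁻¹` have the values `a ^ (m + n)`, `a ^ (-m)`, and
  `(t v t⁻¹) u (t v t⁻¹)⁻¹` has the value `a ^ (m 2 ^ n)`. So each exponential term in `K` (and linear
  in `r`) is the exponent of `a` in the value of a word with constants `a`, `t` in the single
  variable `x`.
* **Arithmetic.** By the theorem of Davis, Putnam, Robinson and Matiyasevich, an r.e. set is given
  by `∃ y, P(n, y) = 0` for an integer polynomial `P`. For `K = 2 ^ k` larger than the `y_i`, one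
  exponential term in `K` describes the list of the values of `P²` on the box `[0, K) ^ ν` in such a
  way that a zero exists iff the `2`-adic valuation of a central binomial coefficient `C(2M, M)` is
  at least `F` (Kummer's theorem), `M` and `F` being given by terms `U / Δ` and `F`. The binomial
  coefficient is the residue of a floor `q` of a quotient of terms. The second parameter `r` is
  used for `q`: the conditions *`K` is an integer*, *`2 ^ F` divides `r`* and *`r` is the floor of
  the quotient* are all of the form *the exponent `s` of the value `a ^ s` of a certain word is an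
  integer*. For `s` in `ℤ[1/2]` this is the case iff `(t a ^ s t⁻¹) a (t a ^ s t⁻¹)⁻¹` commutes with
  `a`: this is an equation in the single variable `x`. (For the floor, both `Z` and `D - 1 - Z` have
  to be non-negative, where `Z` is the remainder of the division by `D`; one uses that
  `2 ^ Z + 2 ^ (D - 1 - Z)` is an integer.) The condition `x ∈ ⟨a, b⟩` is also an equation.
* **One equation.** The conditions are combined into one equation by domination: in the HNN
  extension with stable letter `t`, the value of the test word of the first condition which is
  violated is an element all of whose powers have large length with respect to `t` (Britton's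
  lemma). If its exponent in the equation is large compared with the lengths of the later words,
  the product is not trivial.

The completeness is proved in the group itself, and the soundness in its image in an explicit HNN
extension of the affine group of the ring `ℚ × 𝔽₃`.
-/

set_option autoImplicit false

namespace Pool.Agent.Results.MP_1ebeae_al.Undecidable

/-- The one-relator group `⟨x_0, …, x_{n-1} | r⟩`. -/
abbrev OneRel {n : ℕ} (r : FreeGroup (Fin n)) : Type :=
  PresentedGroup ({r} : Set (FreeGroup (Fin n)))

/-- The value of the symbol `x` (which is `none`) is `g`, the value of the symbol `some i` is the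
generator `x_i` of the group. -/
def symb {n : ℕ} (r : FreeGroup (Fin n)) (g : OneRel r) : Option (Fin n) → OneRel r
  | none => g
  | some i => PresentedGroup.of i

/-- The value `w(g)`: a word is a list of letters, the letter `(s, true)` stands for the symbol `s`
and the letter `(s, false)` stands for its inverse. -/
def evalAt {n : ℕ} (r : FreeGroup (Fin n)) (g : OneRel r) (w : List (Option (Fin n) × Bool)) :
    OneRel r :=
  (w.map fun l => if l.2 = true then symb r g l.1 else (symb r g l.1)⁻¹).prod

/-- The single one-variable equation problem for the group `⟨x_0, …, x_{n-1} | r⟩`: the equation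
`w(x) = 1` is satisfiable. -/
def OneVarEq {n : ℕ} (r : FreeGroup (Fin n)) (w : List (Option (Fin n) × Bool)) : Prop :=
  ∃ g : OneRel r, evalAt r g w = 1

/-- The cyclically reduced word `t a t⁻¹ a t a⁻¹ t⁻¹ a⁻¹ a⁻¹`, where `a = x_0` and `t = x_1`. -/
def wordBG : List (Fin 2 × Bool) :=
  [(1, true), (0, true), (1, false), (0, true), (1, true), (0, false), (1, false), (0, false),
    (0, false)]

/-- The relator of the Baumslag–Gersten group `⟨a, t | (t a t⁻¹) a (t a t⁻¹)⁻¹ = a²⟩`. -/
def relBG : FreeGroup (Fin 2) := FreeGroup.mk wordBG

theorem relBG_eq : relBG = Pool.Agent.K6.H89.BG.relBG := rfl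

theorem exists_re : ∃ S : ℕ → Prop, REPred S ∧ ¬ ComputablePred S := by
  refine ⟨fun n => ∃ c : Nat.Partrec.Code, Encodable.decode (α := Nat.Partrec.Code) n = some c ∧
    (c.eval 0).Dom, ?_, ?_⟩
  · have h := ComputablePred.halting_problem_re 0
    have h2 : Partrec fun n : ℕ => (Part.ofOption (Encodable.decode (α := Nat.Partrec.Code) n)).bind
        (fun c => Part.assert (c.eval 0).Dom fun _ => Part.some ()) :=
      (Computable.decode.ofOption).bind (Partrec.comp h Computable.snd).to₂
    refine h2.of_eq fun n => ?_
    ext u
    simp
  · intro hc
    apply ComputablePred.halting_problem 0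
    obtain ⟨hd, hcomp⟩ := hc
    have h3 : ComputablePred fun c : Nat.Partrec.Code =>
        ∃ c' : Nat.Partrec.Code, Encodable.decode (α := Nat.Partrec.Code) (Encodable.encode c) =
          some c' ∧ (c'.eval 0).Dom := ⟨fun c => hd _, hcomp.comp Computable.encode⟩
    refine h3.of_eq fun c => ?_
    simp

theorem reducible {P : ℕ → Prop} (hP : REPred P) : ManyOneReducible P (OneVarEq relBG) := by
  obtain ⟨w, hw, h⟩ := Pool.Agent.K6.H89.BG.reduction hP
  refine ⟨w, hw.to_comp, fun n => (h n).trans ?_⟩
  have e : ∀ g : OneRel relBG, ∀ v, evalAt relBG g v =
      Pool.Agent.K6.H89.BG.ev (Pool.Agent.K6.H89.BG.vl g) v := by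
    intro g v
    unfold evalAt Pool.Agent.K6.H89.BG.ev
    congr 1
    refine List.map_congr_left fun l _ => ?_
    rcases l with ⟨_ | i, s⟩ <;> rfl
  constructor
  · rintro ⟨g, hg⟩
    exact ⟨g, (e g _).trans hg⟩
  · rintro ⟨g, hg⟩
    exact ⟨g, (e g _).symm.trans hg⟩

/-- **The single one-variable equation problem is undecidable for the Baumslag–Gersten group.** The
word `wordBG` is cyclically reduced; every recursively enumerable set of natural numbers is
many-one reducible to the single one-variable equation problem of the one-relator group
`⟨a, t | t a t⁻¹ a t a⁻¹ t⁻¹ a⁻¹ a⁻¹⟩`, so this problem is undecidable. In particular it is not true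
that the single one-variable equation problem is decidable for every one-relator group. -/
theorem result :
    FreeGroup.IsCyclicallyReduced wordBG ∧
    (∀ P : ℕ → Prop, REPred P → ManyOneReducible P (OneVarEq relBG)) ∧
    ¬ ComputablePred (OneVarEq relBG) ∧
    ¬ ∀ (n : ℕ) (r : FreeGroup (Fin n)), ComputablePred (OneVarEq r) := by
  have h : ¬ ComputablePred (OneVarEq relBG) := by
    intro hc
    obtain ⟨S, hS, hn⟩ := exists_re
    exact hn (ComputablePred.computable_of_manyOneReducible (reducible hS) hc)
  refine ⟨?_, fun P hP => reducible hP, h, fun hall => h (hall 2 relBG)⟩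
  simp [wordBG, FreeGroup.IsCyclicallyReduced, FreeGroup.IsReduced]

end Pool.Agent.Results.MP_1ebeae_al.Undecidable
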